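import Pool.Agent.Lib.lead.CXSat

namespace Pool.Agent.H.MP_521f94_lc

open MvPolynomial MonomialOrder Pool.Agent.Lib.CX

variable {m : ℕ}

theorem gb (I : Ideal (MvPolynomial (Fin m) ℤ)) : ∃ T : Set (MvPolynomial (Fin m) ℤ), T.Finite ∧
    (∀ g ∈ T, g ∈ I) ∧ ∀ f ∈ I, f ≠ 0 → ∃ g ∈ T, ∃ β c, β ≤ degLex.degree f ∧
      c.natAbs ≤ (degLex.leadingCoeff f).natAbs ∧ ∀ δ ∈ (f + monomial β c * g).support,
        δ ≺[degLex] degLex.degree f := by
  classical
  let P : (Fin m →₀ ℕ) × ℕ → Prop := fun a => 0 < a.2 ∧ ∃ f ∈ I, degLex.degree f = a.1 ∧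
    degLex.leadingCoeff f = a.2
  have hf : {a | Minimal P a}.Finite := WellQuasiOrderedLE.finite_of_isAntichain
    (setOfPred_minimal_antichain P)
  choose! g g1 g2 g3 using fun a (h : P a) => h.2
  refine ⟨g '' {a | Minimal P a}, hf.image _, by rintro _ ⟨a, ha, rfl⟩; exact g1 a ha.1, fun f fI f0 => ?_⟩
  have l0 := degLex.leadingCoeff_ne_zero_iff.2 f0
  have ex : ∃ c, P (degLex.degree f, c) := by
    rcases lt_or_gt_of_ne l0 with h | h
    · exact ⟨(degLex.leadingCoeff f).natAbs, by simpa using f0, -f, neg_mem fI, degLex.degree_neg,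
        by rw [leadingCoeff, degLex.degree_neg, coeff_neg, ← leadingCoeff]; simp [abs_of_neg h]⟩
    · exact ⟨(degLex.leadingCoeff f).natAbs, by simpa using f0, f, fI, rfl, by simp [abs_of_pos h]⟩
  obtain ⟨a, ⟨a1, a2⟩, ha⟩ := exists_minimal_le_of_wellFoundedLT P _ (Nat.find_spec ex)
  dsimp only at a1 a2
  have p0 := ha.1.1
  have g0 : g a ≠ 0 := degLex.leadingCoeff_ne_zero_iff.1 (by rw [g3 a ha.1]; omega)
  have hd : ∀ c : ℤ, c ≠ 0 → degLex.degree (monomial (degLex.degree f - a.1) c * g a) = degLex.degree f :=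
    fun c hc => by
      rw [degree_mul (by simpa using hc) g0, degree_monomial, if_neg hc, g2 a ha.1, tsub_add_cancel_of_le a1]
  have hl : ∀ c : ℤ, coeff (degLex.degree f) (monomial (degLex.degree f - a.1) c * g a) = c * a.2 :=
    fun c => by
      by_cases hc : c = 0
      · simp [hc]
      · have := degLex.leadingCoeff_mul (f := monomial (degLex.degree f - a.1) c) (g := g a)
        rwa [leadingCoeff_monomial, g3 a ha.1, leadingCoeff, hd c hc] at this
  have e : Nat.find ex ≤ a.2 := Nat.find_min' ex ⟨p0, _, I.mul_mem_left _ (g1 a ha.1), hd 1 one_ne_zero,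
    by rw [leadingCoeff, hd 1 one_ne_zero, hl, one_mul]⟩
  let q := degLex.leadingCoeff f / a.2
  let f' := f + monomial (degLex.degree f - a.1) (-q) * g a
  have le : ∀ δ ∈ f'.support, δ ≼[degLex] degLex.degree f := fun δ h => by
    rcases Finset.mem_union.1 (support_add h) with h | h
    · exact degLex.le_degree h
    · by_cases hc : -q = 0
      · simp [hc] at h
      · exact hd _ hc ▸ degLex.le_degree h
  have hc : coeff (degLex.degree f) f' = degLex.leadingCoeff f % a.2 := by
    rw [coeff_add, hl, Int.emod_def, ← leadingCoeff]; ring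
  have h1 := Int.emod_nonneg (degLex.leadingCoeff f) (b := a.2) (by omega)
  have h2 := Int.emod_lt_of_pos (degLex.leadingCoeff f) (b := a.2) (by omega)
  have r0 : degLex.leadingCoeff f % a.2 = 0 := by
    by_contra hr
    have hd' : degLex.degree f' = degLex.degree f := degLex.toSyn.injective (le_antisymm
      (degLex.degree_le_iff.2 le) (degLex.le_degree (by rwa [mem_support_iff, hc])))
    refine Nat.find_min ex (m := (degLex.leadingCoeff f % a.2).toNat) (by omega)
      ⟨by dsimp only; omega, f', add_mem fI (I.mul_mem_left _ (g1 a ha.1)), hd', ?_⟩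
    rw [leadingCoeff, hd', hc]; dsimp only; omega
  refine ⟨_, ⟨a, ha, rfl⟩, _, -q, tsub_le_self, ?_, fun δ h => (le δ h).lt_of_ne fun e => ?_⟩
  · rw [Int.natAbs_neg]; exact Int.natAbs_ediv_le_natAbs _ _
  · rw [degLex.toSyn.injective e, mem_support_iff, hc] at h
    exact h r0

abbrev Pl := List (ℤ × List ℕ)

noncomputable def mono (m : ℕ) (u : List ℕ) : Fin m →₀ ℕ :=
  Finsupp.equivFunOnFinite.symm fun i => u.count (i : ℕ)

noncomputable def toP (m : ℕ) (L : Pl) : MvPolynomial (Fin m) ℤ :=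
  (L.map fun p => monomial (mono m p.2) p.1).sum

def nrm (L : Pl) : ℕ := (L.map fun p => p.1.natAbs).sum

def shift (c : ℤ) (u : List ℕ) (g : Pl) : Pl := g.map fun p => (c * p.1, u ++ p.2)

theorem mono_app (u v : List ℕ) : mono m (u ++ v) = mono m u + mono m v := by
  ext i; simp [mono]

theorem toP_app (L K : Pl) : toP m (L ++ K) = toP m L + toP m K := by simp [toP]

theorem toP_shift (c u g) : toP m (shift c u g) = monomial (mono m u) c * toP m g := by
  simp [toP, shift, ← List.sum_map_mul_left, monomial_mul, mono_app, Function.comp_def]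

theorem nrm_app (L K : Pl) : nrm (L ++ K) = nrm L + nrm K := by simp [nrm]

theorem nrm_shift (c u g) : nrm (shift c u g) = c.natAbs * nrm g := by
  simp [nrm, shift, ← List.sum_map_mul_left, Int.natAbs_mul, Function.comp_def]

theorem coeff_toP (L : Pl) (α) : coeff α (toP m L) =
    ((L.filter fun p => mono m p.2 = α).map Prod.fst).sum := by
  classical
  induction L with
  | nil => simp [toP]
  | cons p L ih =>
    rw [← List.singleton_append, toP_app, coeff_add, ih]
    by_cases h : mono m p.2 = α <;> simp [toP, coeff_monomial, h]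

theorem coeff_le (L : Pl) (α) : (coeff α (toP m L)).natAbs ≤ nrm L := by
  induction L with
  | nil => simp [toP]
  | cons p L ih =>
    rw [← List.singleton_append, toP_app, coeff_add, nrm_app]
    refine (Int.natAbs_add_le _ _).trans (add_le_add ?_ ih)
    by_cases h : mono m p.2 = α <;> simp [toP, coeff_monomial, h, nrm]

theorem ex_word (β : Fin m →₀ ℕ) : ∃ u : List ℕ, mono m u = β ∧ u.length = β.degree ∧ ∀ i ∈ u, i < m := by
  induction β using Finsupp.induction_linear with
  | zero => exact ⟨[], by ext; simp [mono], by simp, by simp⟩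
  | add f g hf hg =>
    obtain ⟨u, u1, u2, u3⟩ := hf
    obtain ⟨v, v1, v2, v3⟩ := hg
    exact ⟨u ++ v, by rw [mono_app, u1, v1], by simp [u2, v2], List.forall_mem_append.2 ⟨u3, v3⟩⟩
  | single a b =>
    refine ⟨List.replicate b a, ?_, by simp, by simp +contextual⟩
    ext i; simp [mono, List.count_replicate, Finsupp.single_apply, Fin.val_inj]

theorem toP_surj (f : MvPolynomial (Fin m) ℤ) : ∃ L, toP m L = f := by
  induction f using MvPolynomial.induction_on' with
  | monomial β c => obtain ⟨u, rfl, -⟩ := ex_word β; exact ⟨[(c, u)], by simp [toP]⟩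
  | add p q hp hq => obtain ⟨L, rfl⟩ := hp; obtain ⟨K, rfl⟩ := hq; exact ⟨L ++ K, toP_app _ _⟩

theorem deg_mono (u : List ℕ) : (mono m u).degree ≤ u.length := by
  induction u with
  | nil => rw [show mono m [] = 0 by ext; simp [mono]]; simp
  | cons a u ih =>
    rw [← List.singleton_append, mono_app, map_add, List.length_append]
    refine add_le_add ?_ ih
    by_cases h : a < m
    · rw [show mono m [a] = Finsupp.single ⟨a, h⟩ 1 by
        ext i; simp [mono, List.count_cons, Finsupp.single_apply, Fin.ext_iff]]; simp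
    · rw [show mono m [a] = 0 by
        ext i; have := i.2; simp [mono, List.count_cons]; omega]; simp

def app (Gs : List Pl) (ce : List (ℤ × List ℕ × ℕ)) : Pl :=
  ce.flatMap fun c => shift c.1 c.2.1 (Gs.getD c.2.2 [])

theorem cert (I : Ideal (MvPolynomial (Fin m) ℤ)) : ∃ (Gs : List Pl) (C : ℕ), (∀ g ∈ Gs, toP m g ∈ I) ∧
    ∀ n L, toP m L ∈ I → (∀ p ∈ L, p.2.length ≤ n) → ∃ ce, ce.length ≤ (n + 1) ^ m ∧
      (∀ c ∈ ce, c.1.natAbs ≤ 2 ^ (C * (n + 1) ^ m) * nrm L ∧ c.2.1.length ≤ n ∧ (∀ i ∈ c.2.1, i < m) ∧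
        c.2.2 < Gs.length) ∧ toP m (L ++ app Gs ce) = 0 := by
  classical
  obtain ⟨T, T1, T2, T3⟩ := gb I
  choose r hr using toP_surj (m := m)
  let Gs := T1.toFinset.toList.map r
  let C := (Gs.map nrm).sum
  refine ⟨Gs, C, by simpa [Gs, hr] using T2, fun n L hL hn => ?_⟩
  let B : Finset (Fin m →₀ ℕ) := (Fintype.piFinset fun _ => Finset.range (n + 1)).image
    Finsupp.equivFunOnFinite.symm
  have hB : ∀ α : Fin m →₀ ℕ, α.degree ≤ n → α ∈ B := fun α h => Finset.mem_image.2 ⟨α, by
    simpa [Nat.lt_succ_iff] using fun i => (Finsupp.le_degree i α).trans h, by simp⟩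
  have cB : B.card ≤ (n + 1) ^ m := Finset.card_image_le.trans (by simp)
  let μ := fun f : MvPolynomial (Fin m) ℤ => B.filter fun γ => ∃ δ ∈ f.support, γ ≼[degLex] δ
  have key : ∀ N L, toP m L ∈ I → (∀ δ ∈ (toP m L).support, δ.degree ≤ n) → (μ (toP m L)).card ≤ N →
      ∃ ce, ce.length ≤ N ∧ (∀ c ∈ ce, c.1.natAbs ≤ 2 ^ (C * N) * nrm L ∧ c.2.1.length ≤ n ∧
        (∀ i ∈ c.2.1, i < m) ∧ c.2.2 < Gs.length) ∧ toP m (L ++ app Gs ce) = 0 := fun N => by
    induction N with
    | zero =>
      refine fun L _ h2 h3 => ⟨[], le_rfl, by simp, ?_⟩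
      by_contra h
      simp only [app, List.flatMap_nil, List.append_nil] at h
      have := degLex.degree_mem_support h
      have : (μ (toP m L)).Nonempty := ⟨_, Finset.mem_filter.2 ⟨hB _ (h2 _ this), _, this, le_rfl⟩⟩
      exact absurd (Finset.card_pos.2 this) (by omega)
    | succ N ih =>
      intro L h1 h2 h3
      by_cases h : toP m L = 0
      · exact ⟨[], by simp, by simp, by simpa [app] using h⟩
      have hs := degLex.degree_mem_support h
      obtain ⟨g, hg, β, c, b1, b2, b3⟩ := T3 _ h1 h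
      obtain ⟨u, rfl, u2, u3⟩ := ex_word β
      obtain ⟨j, hj, e⟩ := List.getElem_of_mem (List.mem_map_of_mem (f := r)
        (Finset.mem_toList.2 (T1.mem_toFinset.2 hg)))
      have e1 : Gs.getD j [] = r g := by rw [List.getD_eq_getElem _ _ hj]; exact e
      have e2 : toP m (L ++ shift c u (r g)) = toP m L + monomial (mono m u) c * g := by
        rw [toP_app, toP_shift, hr]
      obtain ⟨ce, c1, c2, c3⟩ := ih (L ++ shift c u (r g)) (e2 ▸ add_mem h1 (I.mul_mem_left _ (T2 g hg)))
        (fun δ hδ => (Finsupp.DegLex.monotone_degree (b3 δ (e2 ▸ hδ)).le).trans (h2 _ hs)) (by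
          refine Nat.le_of_lt_succ ((Finset.card_lt_card ⟨fun γ hγ => ?_, fun hh => ?_⟩).trans_le h3)
          · obtain ⟨k1, δ, k2, k3⟩ := Finset.mem_filter.1 hγ
            exact Finset.mem_filter.2 ⟨k1, _, hs, k3.trans (b3 δ (e2 ▸ k2)).le⟩
          · obtain ⟨-, δ, k2, k3⟩ := Finset.mem_filter.1
              (hh (Finset.mem_filter.2 ⟨hB _ (h2 _ hs), _, hs, le_rfl⟩))
            exact (b3 δ (e2 ▸ k2)).not_ge k3)
      have b4 : c.natAbs ≤ nrm L := b2.trans (coeff_le _ _)
      have b5 : nrm (r g) ≤ C := List.single_le_sum (by simp) _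
        (List.mem_map_of_mem (e ▸ List.getElem_mem hj))
      refine ⟨(c, u, j) :: ce, by simpa using c1, List.forall_mem_cons.2 ⟨⟨b4.trans
        (Nat.le_mul_of_pos_left _ (by positivity)), u2 ▸ (Finsupp.degree_mono b1).trans (h2 _ hs), u3, hj⟩,
        fun x hx => ⟨(c2 x hx).1.trans ?_, (c2 x hx).2⟩⟩, by
          rw [← c3, app, List.flatMap_cons, e1, List.append_assoc, app]⟩
      rw [nrm_app, nrm_shift, mul_add C, mul_one, pow_add, mul_assoc]
      refine Nat.mul_le_mul_left _ ?_
      have := Nat.lt_two_pow_self (n := C)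
      nlinarith [Nat.mul_le_mul b4 b5]
  obtain ⟨ce, h⟩ := key ((n + 1) ^ m) L hL (fun δ hδ => by
    rw [mem_support_iff, coeff_toP] at hδ
    by_contra hh
    rw [List.filter_eq_nil_iff.2 fun p hp e => hh (by
      rw [← of_decide_eq_true e]; exact (deg_mono _).trans (hn p hp))] at hδ
    simp at hδ) ((Finset.card_filter_le _ _).trans cB)
  exact ⟨ce, h⟩

end Pool.Agent.H.MP_521f94_lc
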