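import Mathlib

namespace Pool.Agent.H.MP_521f94_lc

open Polynomial
open scoped commutatorElement

theorem ext_ring {Q B : Type} [CommGroup Q] [AddCommGroup B] (ρ : Q →* Module.End ℤ B) :
    ∃ (S : Type) (_ : CommRing S) (q : Q →* S) (ι : B →+ S), (∀ z f, q z * ι f = ι (ρ z f)) ∧
      ∀ z f, ι f + (q z - 1) = 0 → f = 0 ∧ z = 1 := by
  let R := MonoidAlgebra ℤ Q
  let : Module R B := Module.compHom B (MonoidAlgebra.lift ℤ (Module.End ℤ B) Q ρ).toRingHom
  let : Module Rᵐᵒᵖ B := Module.compHom B (RingEquiv.toOpposite R).symm.toRingHom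
  have : IsCentralScalar R B := ⟨fun _ _ => rfl⟩
  refine ⟨TrivSqZeroExt R B, inferInstance, ((TrivSqZeroExt.inlHom R B : R →* _)).comp (MonoidAlgebra.of ℤ Q),
    (TrivSqZeroExt.inrHom R B).toAddMonoidHom, fun z f => ?_, fun z f h => ⟨?_, ?_⟩⟩
  · refine (TrivSqZeroExt.inl_mul_inr _ _).trans (congrArg _ ?_)
    change MonoidAlgebra.lift ℤ (Module.End ℤ B) Q ρ (MonoidAlgebra.of ℤ Q z) f = _
    rw [MonoidAlgebra.lift_of]
  · simpa using congrArg TrivSqZeroExt.snd h
  · have := congrArg TrivSqZeroExt.fst h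
    refine MonoidAlgebra.of_injective (R := ℤ) ?_
    rw [map_one]
    simp at this
    exact sub_eq_zero.1 this

variable {G : Type} [Group G]

theorem affine (hm : IsMulCommutative (commutator G)) :
    ∃ (S : Type) (_ : CommRing S) (q : G →* S) (b : G → S), (∀ g h, b (g * h) = b g + q g * b h) ∧
      ∀ g, b g = 0 → g = 1 := by
  let : CommGroup (commutator G) := { (inferInstance : Group _) with mul_comm := hm.is_comm.comm }
  let Q := Abelianization G
  let π : G →* Q := Abelianization.of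
  obtain ⟨s, hs⟩ : ∃ s : Q → G, ∀ y, π (s y) = y := ⟨Quotient.out, Quotient.out_eq⟩
  obtain ⟨S, _, q, ι, h1, h2⟩ := ext_ring (Q := Q) (B := Q → Additive (commutator G))
    { toFun z := LinearMap.funLeft ℤ _ (· * z)
      map_one' := by ext; simp
      map_mul' z w := by ext; simp [mul_assoc] }
  have hk : ∀ g, π g = 1 → g ∈ commutator G := fun g h => by
    rw [← Abelianization.ker_of]; exact h
  let d : G → Q → Additive (commutator G) := fun g y =>
    .ofMul ⟨s y * g * (s (y * π g))⁻¹, hk _ (by simp [hs])⟩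
  refine ⟨S, inferInstance, q.comp π, fun g => ι (d g) + (q (π g) - 1), fun g h => ?_, fun g h => ?_⟩
  · have : d (g * h) = d g + fun y => d h (y * π g) := by
      ext y; simp [d, mul_assoc]
    have e := h1 (π g) (d h)
    simp only [this, map_add, map_mul, MonoidHom.comp_apply, mul_add, e]
    change _ + ι (fun y => d h (y * π g)) + _ = _ + (ι (fun y => d h (y * π g)) + _)
    ring
  · obtain ⟨k1, k2⟩ := h2 _ _ h
    have := congrArg (fun x : Additive (commutator G) => (x.toMul : G)) (congrFun k1 1)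
    simpa [d, k2, mul_inv_eq_iff_eq_mul] using this

variable {S : Type} [CommRing S] {q : G →* S} {b : G → S}

section
variable (hb : ∀ g h, b (g * h) = b g + q g * b h)
include hb

theorem b_one : b 1 = 0 := by simpa using hb 1 1

theorem b_inv (g) : b g⁻¹ = -(q g⁻¹ * b g) := by
  have := hb g⁻¹ g
  rw [inv_mul_cancel, b_one hb] at this
  linear_combination -this

theorem b_conj (g a) (h : q a = 1) : b (g * a * g⁻¹) = q g * b a := by
  have := hb g g⁻¹
  rw [mul_inv_cancel, b_one hb] at this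
  rw [hb, hb, map_mul, h]
  linear_combination -this

theorem b_inj (hi : ∀ g, b g = 0 → g = 1) {g h} (e : b g = b h) : g = h := by
  refine inv_mul_eq_one.1 (hi _ ?_)
  rw [hb, b_inv hb, e]; ring

def sub (J : Ideal S) : Subgroup G where
  carrier := {a | q a = 1 ∧ b a ∈ J}
  one_mem' := ⟨map_one _, by simp [b_one hb]⟩
  mul_mem' := fun ⟨h1, h2⟩ ⟨k1, k2⟩ => ⟨by simp [h1, k1], by
    rw [hb]; exact add_mem h2 (J.mul_mem_left _ k2)⟩
  inv_mem' := fun {a} ⟨h1, h2⟩ => ⟨by simpa [h1] using (map_mul q a⁻¹ a).symm, by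
    rw [b_inv hb]; exact neg_mem (J.mul_mem_left _ h2)⟩

end

theorem q_conj (g a) : q (g * a * g⁻¹) = q a := by
  rw [map_mul, map_mul, mul_right_comm, ← map_mul]; simp

theorem q_comm (g h : G) : q ⁅g, h⁆ = 1 := by
  rw [commutatorElement_def, map_mul, q_conj, ← map_mul]; simp

theorem comm_le {X : Type} (x : X → G) (hx : Subgroup.closure (Set.range x) = ⊤) (N : Subgroup G)
    [N.Normal] (h : ∀ j l, ⁅x j, x l⁆ ∈ N) : commutator G ≤ N := by
  have h1 : ∀ y : G ⧸ N, (∀ j, Commute y (x j)) → ∀ g : G, Commute y g := fun y hy g => by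
    induction (hx ▸ Subgroup.mem_top g : g ∈ Subgroup.closure (Set.range x)) using
      Subgroup.closure_induction with
    | mem _ h => obtain ⟨j, rfl⟩ := h; exact hy j
    | one => exact .one_right _
    | mul _ _ _ _ a c => exact a.mul_right c
    | inv _ _ a => exact a.inv_right
  have h2 : ∀ g k : G, ⁅g, k⁆ ∈ N ↔ Commute (g : G ⧸ N) k := fun g k => by
    rw [← QuotientGroup.eq_one_iff, ← commutatorElement_eq_one_iff_commute]; rfl
  exact Subgroup.commutator_le.2 fun g _ k _ => (h2 _ _).2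
    (h1 _ (fun j => (h1 _ (fun l => (h2 _ _).1 (h j l)) g).symm) k)

theorem hardel {X : Type} [Fintype X] (x : X → G) (hx : Subgroup.closure (Set.range x) = ⊤)
    (hb : ∀ g h, b (g * h) = b g + q g * b h) (hi : ∀ g, b g = 0 → g = 1)
    (hn : ¬∃ H : Subgroup G, H.FiniteIndex ∧ Group.IsNilpotent H) :
    ∃ (t a : G) (p : Ideal S), p.IsPrime ∧ q a = 1 ∧ (∀ r, r * b a = 0 → r ∈ p) ∧
      ∀ k, 0 < k → q t ^ k - 1 ∉ p := by
  classical
  by_contra H
  have nm : ∀ J, (sub hb J).Normal := fun J => ⟨fun a h g => ⟨by rw [q_conj, h.1], by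
    rw [b_conj hb _ _ h.1]; exact J.mul_mem_left _ h.2⟩⟩
  let An : S → Ideal S := fun r : S => LinearMap.ker (LinearMap.mulRight S r)
  have dv : ∀ (τ : S) m n, τ ^ m - 1 ∣ τ ^ (m * n) - 1 := fun τ m n => by
    rw [pow_mul]; exact sub_one_dvd_pow_sub_one _ _
  have k1 : ∀ t a, q a = 1 → ∃ M, 0 < M ∧ q t ^ M - 1 ∈ (An (b a)).radical := fun t a ha => by
    by_contra h
    obtain ⟨p, p1, p2, p3⟩ := (An (b a)).exists_le_prime_disjoint
      (.closure {y | ∃ k, 0 < k ∧ q t ^ k - 1 = y}) (Set.disjoint_left.2 fun y h1 h2 => by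
        obtain ⟨M, r, k1, c, k2⟩ : ∃ M r, 0 < M ∧ y ∣ (q t ^ M - 1) ^ r := by
          clear h1
          induction h2 using Submonoid.closure_induction with
          | mem _ h => obtain ⟨k, h, rfl⟩ := h; exact ⟨k, 1, h, by simp⟩
          | one => exact ⟨1, 0, one_pos, by simp⟩
          | mul _ _ _ _ h1 h2 =>
            obtain ⟨M, r, a1, a2⟩ := h1
            obtain ⟨N, s, a3, a4⟩ := h2
            exact ⟨M * N, r + s, by positivity, by
              rw [pow_add]
              exact mul_dvd_mul (a2.trans (pow_dvd_pow_of_dvd (dv _ _ _) _))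
                (a4.trans (pow_dvd_pow_of_dvd (mul_comm M N ▸ dv _ _ _) _))⟩
        exact h ⟨M, k1, r, k2 ▸ Ideal.mul_mem_right _ _ h1⟩)
    exact H ⟨t, a, p, p1, ha, fun r hr => p2 hr, fun k hk h =>
      Set.disjoint_left.1 p3 h (Submonoid.subset_closure ⟨k, hk, rfl⟩)⟩
  choose M M0 hM using fun z : X × X × X => k1 (x z.1) _ (q_comm (x z.2.1) (x z.2.2))
  let I : Ideal S := .span (Set.range fun i => q (x i) ^ (∏ z, M z) - 1)
  choose n hn' using fun z : X × X => Ideal.exists_pow_le_of_le_radical_of_fg (I := I)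
    (J := An (b ⁅x z.1, x z.2⁆)) (Ideal.span_le.2 (by
      rintro _ ⟨i, rfl⟩
      obtain ⟨c, e⟩ := Finset.dvd_prod_of_mem M (Finset.mem_univ (i, z))
      obtain ⟨d, e'⟩ := dv (q (x i)) (M (i, z)) c
      simp only [e, e']
      exact Ideal.mul_mem_right _ _ (hM (i, z)))) (Submodule.fg_span (Set.finite_range _))
  let K : Subgroup G :=
    { carrier := {g | q g - 1 ∈ I}
      one_mem' := by simp
      mul_mem' := fun {g h} h1 h2 => by
        have := add_mem (I.mul_mem_left (q g) h2) h1
        change _ ∈ I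
        convert this using 1
        rw [map_mul]; ring
      inv_mem' := fun {g} h1 => by
        have := neg_mem (I.mul_mem_left (q g⁻¹) h1)
        change _ ∈ I
        convert this using 1
        rw [mul_sub, ← map_mul]; simp }
  have : K.Normal := ⟨fun a h g => show _ ∈ I by rw [q_conj]; exact h⟩
  have hc : commutator G ≤ K := Subgroup.commutator_le.2 fun g _ k _ => show _ ∈ I by simp [q_comm]
  refine hn ⟨K, ?_, ?_⟩
  · let : CommGroup (G ⧸ K) := { (inferInstance : Group _) with
      mul_comm := (Subgroup.Normal.quotient_commutative_iff_commutator_le.2 hc).is_comm.comm }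
    have : Group.FG G := Group.fg_iff.2 ⟨_, hx, Set.finite_range x⟩
    have := CommGroup.finite_of_fg_isMulTorsion (G ⧸ K) fun y => by
      obtain ⟨g, rfl⟩ := QuotientGroup.mk_surjective y
      induction (hx ▸ Subgroup.mem_top g : g ∈ Subgroup.closure (Set.range x)) using
        Subgroup.closure_induction with
      | mem _ h =>
        obtain ⟨j, rfl⟩ := h
        refine isOfFinOrder_iff_pow_eq_one.2 ⟨∏ z, M z, Finset.prod_pos fun z _ => M0 z, ?_⟩
        rw [← QuotientGroup.mk_pow, QuotientGroup.eq_one_iff]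
        change _ ∈ I
        rw [map_pow]
        exact Ideal.subset_span ⟨j, rfl⟩
      | one => exact IsOfFinOrder.one
      | mul _ _ _ _ a c => exact a.mul c
      | inv _ _ a => exact a.inv
    exact Subgroup.finiteIndex_of_finite_quotient
  · let J : Ideal S := .span (b '' commutator G)
    have : ∀ s, K.lowerCentralSeries (s + 1) ≤ sub hb (I ^ s * J) := fun s => by
      induction s with
      | zero =>
        refine Subgroup.commutator_le.2 fun g _ k _ => ⟨q_comm _ _, ?_⟩
        rw [pow_zero, one_mul]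
        exact Ideal.subset_span ⟨_, Subgroup.commutator_mem_commutator trivial trivial, rfl⟩
      | succ s ih =>
        refine Subgroup.commutator_le.2 fun g hg k hk => ⟨q_comm _ _, ?_⟩
        have h1 := ih hg
        have h2 := (inv_mem h1).1
        have := neg_mem (Ideal.mul_mem_mul (show _ ∈ I from hk) h1.2)
        rw [pow_succ', mul_assoc]
        convert this using 1
        rw [commutatorElement_def, mul_assoc, mul_assoc, hb, ← mul_assoc k, b_conj hb _ _ h2, b_inv hb, h2,
          h1.1]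
        ring
    refine (Subgroup.isNilpotent_iff_lowerCentralSeries K).2 ⟨Finset.univ.sup n + 1,
      eq_bot_iff.2 fun g hg => hi g ?_⟩
    refine (Ideal.mul_le (K := ⊥)).2 (fun y hy z hz => ?_) (this _ hg).2
    refine (Ideal.span_le (I := LinearMap.ker (LinearMap.mulLeft S y))).2 ?_ hz
    rintro _ ⟨c, hc, rfl⟩
    have := nm (LinearMap.ker (LinearMap.mulLeft S y))
    exact (comm_le x hx (sub hb _) (fun j l => ⟨q_comm _ _, hn' (j, l)
      (Ideal.pow_le_pow_right (Finset.le_sup (Finset.mem_univ _)) hy)⟩) hc).2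

def Bad {L : Type} [Field L] (μ : L) : Prop :=
  ∃ f : ℤ[X], f ≠ 0 ∧ (∀ i, |f.coeff i| ≤ 1) ∧ aeval μ f = 0

variable {L : Type} [Field L] {μ : L}

theorem Bad.inv (h : Bad μ) (h0 : μ ≠ 0) : Bad μ⁻¹ := by
  obtain ⟨f, f1, f2, f3⟩ := h
  let := invertibleOfNonzero h0
  exact ⟨f.reverse, by simpa using f1, fun i => by rw [coeff_reverse]; exact f2 _,
    (eval₂_reverse_eq_zero_iff _ μ f).2 f3⟩

theorem Bad.map {K : Type} [Field K] (φ : L →+* K) : Bad (φ μ) ↔ Bad μ := by
  have : ∀ f : ℤ[X], aeval (φ μ) f = φ (aeval μ f) := fun f => aeval_algHom_apply φ.toIntAlgHom μ f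
  simp [Bad, this]

theorem lc {f : ℤ[X]} (f1 : f ≠ 0) (f2 : ∀ i, |f.coeff i| ≤ 1) : f.leadingCoeff * f.leadingCoeff = 1 := by
  have := abs_le.1 (f2 f.natDegree)
  have h := leadingCoeff_ne_zero.2 f1
  rw [leadingCoeff] at *
  obtain h | h : f.coeff f.natDegree = 1 ∨ f.coeff f.natDegree = -1 := by omega
  all_goals simp [h]

theorem Bad.int (h : Bad μ) : IsIntegral ℤ μ := by
  obtain ⟨f, f1, f2, f3⟩ := h
  exact ⟨f * C f.leadingCoeff, monic_mul_C_of_leadingCoeff_mul_eq_one (lc f1 f2), by
    rw [← aeval_def, map_mul, f3, zero_mul]⟩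

theorem Bad.norm {z : ℂ} (h : Bad z) : ‖z‖ < 2 := by
  obtain ⟨f, f1, f2, f3⟩ := h
  by_contra! h
  have g : ∀ n, ∑ i ∈ Finset.range n, ‖z‖ ^ i < ‖z‖ ^ n := fun n => by
    induction n with
    | zero => simp
    | succ n ih =>
      rw [Finset.sum_range_succ, pow_succ]
      nlinarith [pow_pos (show 0 < ‖z‖ by linarith) n]
  rw [aeval_eq_sum_range, Finset.sum_range_succ, add_comm, add_eq_zero_iff_eq_neg] at f3
  have := congrArg Norm.norm f3
  have l : |(f.coeff f.natDegree : ℝ)| = 1 := by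
    have := congrArg (fun x : ℤ => (x : ℝ)) (lc f1 f2)
    simp only [leadingCoeff, Int.cast_mul, Int.cast_one] at this
    exact (mul_self_eq_one_iff.1 this).elim (fun h => by rw [h]; simp) (fun h => by rw [h]; simp)
  rw [norm_neg, zsmul_eq_mul, norm_mul, norm_pow, Complex.norm_intCast, l, one_mul] at this
  refine (g _).not_ge (this ▸ norm_sum_le_of_le _ fun i _ => ?_)
  rw [zsmul_eq_mul, norm_mul, norm_pow, Complex.norm_intCast]
  exact mul_le_of_le_one_left (by positivity) (by exact_mod_cast f2 i)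

theorem kron (h0 : μ ≠ 0) (h : ∀ k, 0 < k → μ ^ k ≠ 1) : ∃ N, 0 < N ∧ ¬Bad (μ ^ N) := by
  by_contra! H
  have hi : IsIntegral ℤ μ := by simpa using (H 1 one_pos).int
  obtain ⟨p, hp⟩ := CharP.exists L
  rcases CharP.char_is_prime_or_zero L p with pp | rfl
  · let := ZMod.algebra L p
    have := Fact.mk pp
    have hz : IsIntegral (ZMod p) μ := hi.tower_top
    have := Module.Finite.iff_fg.2 hz.fg_adjoin_singleton
    have := Module.finite_of_finite (ZMod p) (M := Subalgebra.toSubmodule (Algebra.adjoin (ZMod p) {μ}))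
    obtain ⟨i, j, hij, e⟩ := Finite.exists_ne_map_eq_of_infinite fun i : ℕ =>
      (⟨μ ^ i, pow_mem (Algebra.self_mem_adjoin_singleton (ZMod p) μ) i⟩ :
        Subalgebra.toSubmodule (Algebra.adjoin (ZMod p) {μ}))
    replace e : μ ^ i = μ ^ j := congrArg Subtype.val e
    wlog hl : i < j generalizing i j
    · exact this j i hij.symm e.symm (by omega)
    exact h (j - i) (by omega) (by rw [pow_sub₀ _ h0 hl.le, e, mul_inv_cancel₀ (pow_ne_zero _ h0)])
  · have := CharP.charP_to_charZero L
    have := IntermediateField.adjoin.finiteDimensional (K := ℚ) (x := μ) hi.tower_top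
    let K := IntermediateField.adjoin ℚ {μ}
    have : NumberField K := {}
    let y : K := IntermediateField.AdjoinSimple.gen ℚ μ
    have hy : ∀ N, 0 < N → Bad (y ^ N) := fun N hN => (Bad.map (algebraMap K L)).1 (H N hN)
    have y0 : y ≠ 0 := fun e => h0 (congrArg Subtype.val e)
    obtain ⟨n, n0, e⟩ := NumberField.Embeddings.pow_eq_one_of_norm_eq_one K ℂ (x := y)
      (by simpa using (hy 1 one_pos).int) fun φ => by
        have key : ∀ w : K, (∀ N, 0 < N → Bad (w ^ N)) → ‖φ w‖ ≤ 1 := fun w hw => by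
          by_contra! h1
          obtain ⟨N, hN⟩ := pow_unbounded_of_one_lt 2 h1
          have := ((Bad.map φ).2 (hw N (Nat.pos_of_ne_zero (by rintro rfl; norm_num at hN)))).norm
          rw [map_pow, norm_pow] at this
          linarith
        have := key y⁻¹ fun N hN => inv_pow y N ▸ (hy N hN).inv (pow_ne_zero _ y0)
        rw [map_inv₀, norm_inv, inv_le_one₀ (by simpa using y0)] at this
        exact le_antisymm (key y hy) this
    exact h n n0 (congrArg Subtype.val e)

theorem sum_inj (h : ¬Bad μ) {U V : Finset ℕ} (e : ∑ i ∈ U, μ ^ i = ∑ i ∈ V, μ ^ i) : U = V := by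
  have c : ∀ i, (∑ i ∈ U, X ^ i - ∑ i ∈ V, X ^ i : ℤ[X]).coeff i =
      (if i ∈ U then 1 else 0) - if i ∈ V then 1 else 0 := fun i => by
    simp [coeff_X_pow]
  by_contra hne
  refine h ⟨_, fun h => hne (Finset.ext fun i => ?_), fun i => by rw [c]; split_ifs <;> simp,
    by simp [e]⟩
  have := c i
  rw [h] at this
  split_ifs at this <;> simp_all

end Pool.Agent.H.MP_521f94_lc
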