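import Pool.Agent.Lib.lead.CXDefs

namespace Pool.Agent.H.MP_521f94_lc

/-- the group element represented by a word in letters and formal inverses -/
def ev {X G : Type} [Group G] (x : X → G) (w : List (X × Bool)) : G :=
  (w.map fun l => if l.2 then x l.1 else (x l.1)⁻¹).prod

/-- subset sum: the word `I.2` equals the ordered product of the words of `I.1` raised to exponents 0 or 1 -/
def SSP {X G : Type} [Group G] (x : X → G) (I : List (List (X × Bool)) × List (X × Bool)) : Prop :=
  ∃ ε : ℕ → Bool, ev x I.2 = (I.1.mapIdx fun i w => ev x w ^ (ε i).toNat).prod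

end Pool.Agent.H.MP_521f94_lc
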