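import Pool.Agent.H.MP_521f94_lc.A
import Pool.Agent.H.MP_521f94_lc.B
import Pool.Agent.H.MP_521f94_lc.Defs

namespace Pool.Agent.H.MP_521f94_lc

open MvPolynomial Pool.Agent.Lib.CX

variable {G X S : Type} [Group G] [CommRing S] {q : G →* S} {b : G → S} {x : X → G} {m : ℕ}

@[simp] theorem ev_nil : ev x [] = 1 := rfl

@[simp] theorem ev_app (u v) : ev x (u ++ v) = ev x u * ev x v := by simp [ev]

def Zc (m : ℕ) (L : Pl) : Prop :=
  ∀ p ∈ L, ((L.filter fun p' => decide (∀ i < m, p'.2.count i = p.2.count i)).map Prod.fst).sum = 0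

instance (L : Pl) : Decidable (Zc m L) := by unfold Zc; infer_instance

theorem zc_iff (L : Pl) : Zc m L ↔ toP m L = 0 := by
  have e : ∀ p : ℤ × List ℕ, (L.filter fun p' => decide (∀ i < m, p'.2.count i = p.2.count i)) =
      L.filter fun p' => mono m p'.2 = mono m p.2 := fun p => List.filter_congr fun p' _ => by
    simp [mono, funext_iff, Fin.forall_iff]
  simp only [Zc, e, ← coeff_toP]
  refine ⟨fun h => MvPolynomial.ext _ _ fun α => ?_, fun h => by simp [h]⟩
  by_cases k : ∃ p ∈ L, mono m p.2 = α
  · obtain ⟨p, hp, rfl⟩ := k; exact h p hp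
  · rw [coeff_toP, List.filter_eq_nil_iff.2 fun p hp e => k ⟨p, hp, of_decide_eq_true e⟩]; simp

theorem aeval_mono (s : ℕ → S) (u : List ℕ) (h : ∀ i ∈ u, i < m) :
    aeval (fun i : Fin m => s i) (monomial (mono m u) (1 : ℤ)) = (u.map s).prod := by
  induction u with
  | nil => rw [show mono m [] = 0 by ext; simp [mono]]; simp
  | cons a u ih =>
    obtain ⟨h1, h2⟩ := List.forall_mem_cons.1 h
    rw [← List.singleton_append, mono_app, ← one_mul (1 : ℤ), ← monomial_mul, map_mul, ih h2,
      show mono m [a] = Finsupp.single ⟨a, h1⟩ 1 by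
        ext i; simp [mono, List.count_cons, Finsupp.single_apply, Fin.ext_iff]]
    simp [← X_pow_eq_monomial]

def pol [DecidableEq X] (ls w : List (X × Bool)) : Pl := (List.range w.length).map fun t =>
  (1, (w.take t).map (fun l => 2 * ls.idxOf l) ++ ((w.drop t).take 1).map fun l => 2 * ls.idxOf l + 1)

def sel (ws : List (List (X × Bool))) (ε : ℕ → Bool) : List (X × Bool) :=
  (ws.mapIdx fun i w => bif ε i then w else []).flatten

theorem sel_spec (ws : List (List (X × Bool))) : ∀ ε, ev x (sel ws ε) =
    (ws.mapIdx fun i w => ev x w ^ (ε i).toNat).prod ∧ (sel ws ε).length ≤ ws.flatten.length := by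
  induction ws with
  | nil => simp [sel]
  | cons w ws ih =>
    intro ε
    obtain ⟨h1, h2⟩ := ih fun i => ε (i + 1)
    simp only [sel, List.mapIdx_cons, List.flatten_cons, ev_app, List.prod_cons, List.length_append] at *
    rw [h1]
    cases ε 0 <;> simp at * <;> omega

theorem pol_spec [DecidableEq X] (hb : ∀ g h, b (g * h) = b g + q g * b h) (ls : List (X × Bool))
    (hl : ∀ l, l ∈ ls) : ∃ s : Fin (2 * ls.length) → S, ∀ w, aeval s (toP _ (pol ls w)) = b (ev x w) := by
  let s : ℕ → S := fun n => ((ls[n / 2]?).map fun l => if n % 2 = 0 then q (ev x [l]) else b (ev x [l])).getD 0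
  have s0 : ∀ l, s (2 * ls.idxOf l) = q (ev x [l]) := fun l => by
    simp [s, List.getElem?_idxOf (hl l)]
  have s1 : ∀ l, s (2 * ls.idxOf l + 1) = b (ev x [l]) := fun l => by
    simp [s, List.getElem?_idxOf (hl l), show (2 * ls.idxOf l + 1) / 2 = ls.idxOf l by omega]
  have lt := fun l => List.idxOf_lt_length_of_mem (hl l)
  have sq : ∀ u : List (X × Bool), (u.map fun l => q (ev x [l])).prod = q (ev x u) := fun u => by
    induction u with
    | nil => simp
    | cons l u ih => rw [List.map_cons, List.prod_cons, ih, ← map_mul, ← ev_app]; rfl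
  refine ⟨fun i => s i, fun w => ?_⟩
  have : ∀ n ≤ w.length, aeval (fun i : Fin (2 * ls.length) => s i) (toP _ ((List.range n).map fun t =>
      (1, (w.take t).map (fun l => 2 * ls.idxOf l) ++ ((w.drop t).take 1).map fun l => 2 * ls.idxOf l + 1))) =
      b (ev x (w.take n)) := fun n => by
    induction n with
    | zero => simp [toP, b_one hb]
    | succ n ih =>
      intro h
      rw [List.range_succ, List.map_append, toP_app, map_add, ih (by omega), List.take_add, ev_app, hb,
        List.drop_eq_getElem_cons h]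
      simp only [toP, List.map_cons, List.map_nil, List.sum_cons, List.sum_nil, add_zero,
        List.drop_eq_getElem_cons h, List.take_succ_cons, List.take_zero]
      rw [aeval_mono s _ (by
        simp only [List.forall_mem_append, List.forall_mem_map, List.forall_mem_singleton]
        exact ⟨fun l _ => by have := lt l; omega, by have := lt w[n]; omega⟩)]
      simp [Function.comp_def, s0, s1, sq, -List.map_take]
  simpa [pol] using this _ le_rfl

theorem pol_bd [DecidableEq X] (ls w : List (X × Bool)) :
    nrm (pol ls w) = w.length ∧ ∀ p ∈ pol ls w, p.2.length ≤ w.length := by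
  refine ⟨by simp [nrm, pol, Function.comp_def], ?_⟩
  simp only [pol, List.forall_mem_map, List.mem_range]
  intro t ht
  simp; omega

theorem inNP [Fintype X] [Enc X] (hb : ∀ g h, b (g * h) = b g + q g * b h) (hi : ∀ g, b g = 0 → g = 1) :
    InNP (SSP x) := by
  classical
  obtain ⟨ls, hl⟩ : ∃ ls : List (X × Bool), ∀ l, l ∈ ls := ⟨Finset.univ.toList, by simp⟩
  obtain ⟨s, hs⟩ := pol_spec (x := x) hb ls hl
  generalize 2 * ls.length = m at s hs
  obtain ⟨Gs, C, h1, h2⟩ := cert (RingHom.ker (aeval s : MvPolynomial (Fin m) ℤ →ₐ[ℤ] S))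
  have hv : ∀ u v, aeval s (toP m (pol ls u ++ shift (-1) [] (pol ls v))) = b (ev x u) - b (ev x v) :=
    fun u v => by
      rw [toP_app, toP_shift, show mono m [] = 0 by ext; simp [mono], map_add, map_mul, hs, hs]
      simp [sub_eq_add_neg]
  let n := fun I : List (List (X × Bool)) × List (X × Bool) => I.1.flatten.length + I.2.length
  refine InNP.of_cert' (fun I (c : List Bool × List (ℤ × List ℕ × ℕ)) => Zc m
    ((pol ls (sel I.1 fun i => c.1.getD i false) ++ shift (-1) [] (pol ls I.2)) ++ app Gs c.2))
    (fun I => 3 * I.1.length + 5 + (n I + 1) ^ m * (3 * (C * (n I + 1) ^ m + n I) + n I * (3 * m + 2 + 1) +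
      3 * Gs.length + 11 + 1)) (by unfold Zc pol sel shift app shift; fun_prop) (by simp only [n]; fun_prop)
    (fun I c h => ⟨fun i => c.1.getD i false, ?_⟩) fun I ⟨ε, h⟩ => ?_
  · rw [zc_iff, toP_app] at h
    have : ∀ ce, aeval s (toP m (app Gs ce)) = 0 := fun ce => by
      induction ce with
      | nil => simp [app, toP]
      | cons c ce ih =>
        rw [app, List.flatMap_cons, toP_app, map_add, ← app, ih, toP_shift, map_mul, add_zero]
        refine mul_eq_zero_of_right _ ?_
        by_cases k : c.2.2 < Gs.length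
        · rw [List.getD_eq_getElem _ _ k]; exact h1 _ (List.getElem_mem k)
        · rw [List.getD_eq_default _ _ (not_lt.1 k)]; simp [toP]
    have h := congrArg (aeval s) h
    rw [map_add, this, hv, add_zero, map_zero, sub_eq_zero] at h
    rw [← b_inj hb hi h, (sel_spec _ _).1]
  · have e : (sel I.1 fun i => ((List.range I.1.length).map ε).getD i false) = sel I.1 ε :=
      congrArg List.flatten (List.mapIdx_eq_mapIdx_iff.2 fun i hi => by simp [hi])
    obtain ⟨k1, k2⟩ := sel_spec (x := x) I.1 ε
    obtain ⟨k3, k4⟩ := pol_bd ls (sel I.1 ε)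
    obtain ⟨k5, k6⟩ := pol_bd ls I.2
    obtain ⟨ce, c1, c2, c3⟩ := h2 (n I) (pol ls (sel I.1 ε) ++ shift (-1) [] (pol ls I.2))
      (by rw [RingHom.mem_ker, hv, k1, h, sub_self]) (by
        simp only [List.forall_mem_append, shift, List.forall_mem_map, n]
        exact ⟨fun p hp => by have := k4 p hp; omega, fun p hp => by have := k6 p hp; simp; omega⟩)
    refine ⟨((List.range I.1.length).map ε, ce), ?_, by rw [e, zc_iff]; exact c3⟩
    have := size_list_le (l := ce) (B := 3 * (C * (n I + 1) ^ m + n I) + n I * (3 * m + 2 + 1) +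
      3 * Gs.length + 11) fun ⟨c, u, j⟩ hc => by
        obtain ⟨d1, d2, d3, d4⟩ := c2 _ hc
        rw [nrm_app, nrm_shift, k3, k5] at d1
        have a1 := size_nat_of_lt (k := C * (n I + 1) ^ m + n I) (d1.trans_lt (by
          rw [pow_add]
          exact Nat.mul_lt_mul_of_pos_left ((show _ ≤ n I by simp only [n, Int.natAbs_neg, Int.natAbs_one]; omega).trans_lt Nat.lt_two_pow_self)
            (by positivity)))
        have a2 := size_list_le (l := u) (B := 3 * m + 2) fun i hi =>
          (size_nat_le i).trans (by have := d3 i hi; omega)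
        have a3 := size_nat_le j
        have := Nat.mul_le_mul_right (3 * m + 2 + 1) d2
        simp only [size_pair, size_int] at *
        omega
    have := Nat.mul_le_mul_right (3 * (C * (n I + 1) ^ m + n I) + n I * (3 * m + 2 + 1) +
      3 * Gs.length + 11 + 1) c1
    simp only [size_pair, size_bits, List.length_map, List.length_range]
    omega

end Pool.Agent.H.MP_521f94_lc
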