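import Pool.Agent.H.MP_521f94_lc.C

namespace Pool.Agent.H.MP_521f94_lc

open Pool.Agent.Lib.CX Finset

variable {G X S : Type} [Group G] [CommRing S] {q : G →* S} {b : G → S} {x : X → G} {t a : G}

def Rel (q : G →* S) (b : G → S) (t a g : G) (f : S) (e : ℕ) : Prop :=
  ∃ u, q u = 1 ∧ b u = f * b a ∧ g = u * t ^ e

def pr (F : ℕ → G) (ε : ℕ → Bool) (n : ℕ) : G := ((List.range n).map fun i => F i ^ (ε i).toNat).prod

def off (d : ℕ → ℕ) (ε : ℕ → Bool) (n : ℕ) : ℕ := ∑ i ∈ range n, if ε i then d i else 0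

theorem ev_flat (F : ℕ → List (X × Bool)) (p : ℕ → Prop) [DecidablePred p] (n : ℕ) :
    ev x ((List.range n).flatMap fun i => if p i then F i else []) =
      pr (fun i => ev x (F i)) (fun i => decide (p i)) n := by
  induction n with
  | zero => rfl
  | succ n ih =>
    rw [pr] at *
    by_cases h : p n <;> simp [List.range_succ, ih, h]

theorem ev_rep (w : List (X × Bool)) (n) : ev x (List.replicate n w).flatten = ev x w ^ n := by
  induction n with
  | zero => simp
  | succ n ih => simp [List.replicate_succ, ih, pow_succ']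

section
variable (hb : ∀ g h, b (g * h) = b g + q g * b h)
include hb

theorem Rel.mul {g g' f f' e e'} (h : Rel q b t a g f e) (h' : Rel q b t a g' f' e') :
    Rel q b t a (g * g') (f + q t ^ e * f') (e + e') := by
  obtain ⟨u, u1, u2, rfl⟩ := h
  obtain ⟨v, v1, v2, rfl⟩ := h'
  exact ⟨u * (t ^ e * v * (t ^ e)⁻¹), by rw [map_mul, q_conj, u1, v1, one_mul], by
    rw [hb, b_conj hb _ _ v1, u1, u2, v2, map_pow]; ring, by group⟩

theorem Rel.pow (e) : Rel q b t a (t ^ e) 0 e := ⟨1, map_one _, by simp [b_one hb], by simp⟩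

theorem Rel.pr {F d} {f : ℕ → S} (ε : ℕ → Bool) (n : ℕ) (h : ∀ i < n, Rel q b t a (F i) (f i) (d i)) :
    Rel q b t a (pr F ε n) (∑ i ∈ range n, if ε i then q t ^ off d ε i * f i else 0) (off d ε n) := by
  induction n with
  | zero => simpa [MP_521f94_lc.pr, off] using Rel.pow hb 0
  | succ n ih =>
    have i1 := ih fun i hi => h i (by omega)
    have := i1.mul hb (h n (by omega))
    simp only [MP_521f94_lc.pr, off, List.range_succ, sum_range_succ] at *
    cases k : ε n
    · simpa [k] using i1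
    · simpa [k] using this

theorem Rel.lamp (ha : q a = 1) (P) : Rel q b t a (t ^ P * a * t⁻¹ ^ P) (q t ^ P) 0 ∧
    Rel q b t a (t ^ P * a⁻¹ * t⁻¹ ^ P) (-q t ^ P) 0 := by
  have h : q a⁻¹ = 1 := by simpa [ha] using (map_mul q a⁻¹ a).symm
  rw [inv_pow]
  exact ⟨⟨t ^ P * a * (t ^ P)⁻¹, by rw [q_conj, ha], by rw [b_conj hb _ _ ha, map_pow], by simp⟩,
    ⟨t ^ P * a⁻¹ * (t ^ P)⁻¹, by rw [q_conj, h], by
      rw [b_conj hb _ _ h, b_inv hb, h, map_pow]; ring, by simp⟩⟩

end

def dd (β : ℕ) : ℕ := if β % 4 = 3 then 0 else 1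

theorem off_succ (d ε n) : off d ε (n + 1) = off d ε n + if ε n then d n else 0 := sum_range_succ _ _

theorem off_le (ε n) : off dd ε n ≤ n := by
  induction n with
  | zero => simp [off]
  | succ n ih => rw [off_succ, dd]; split_ifs <;> omega

theorem core {η : ℕ → Bool} {m : ℕ} (h : ∀ c, η (4 * c + 3) = true) :
    ((∀ β < 4 * m, η β → off dd η β = (β + 1) / 4) ∧ off dd η (4 * m) = m) ↔
      ∀ c < m, one3 (η (4 * c)) (η (4 * c + 1)) (η (4 * c + 2)) = true := by
  have d0 : ∀ c, dd (4 * c) = 1 := fun c => if_neg (by omega)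
  have d1 : ∀ c, dd (4 * c + 1) = 1 := fun c => if_neg (by omega)
  have d2 : ∀ c, dd (4 * c + 2) = 1 := fun c => if_neg (by omega)
  have d3 : ∀ c, dd (4 * c + 3) = 0 := fun c => if_pos (by omega)
  induction m with
  | zero => simp [off]
  | succ m ih =>
    have e0 := off_succ dd η (4 * m)
    have e1 := off_succ dd η (4 * m + 1)
    have e2 := off_succ dd η (4 * m + 2)
    have e3 := off_succ dd η (4 * m + 3)
    rw [d0] at e0; rw [d1] at e1; rw [d2] at e2; rw [d3] at e3
    rw [Nat.forall_lt_succ_right (n := m), ← propext ih, show 4 * (m + 1) = 4 * m + 1 + 1 + 1 + 1 from rfl]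
    simp only [Nat.forall_lt_succ_right, add_assoc, Nat.reduceAdd, h, ite_self, forall_const, one3,
      beq_iff_eq] at e0 e1 e2 e3 ih ⊢
    have : (∀ β < 4 * m, η β = true → off dd η β = (β + 1) / 4) → off dd η (4 * m) = m := fun k => by
      rcases m with _ | m
      · simp [off]
      · have := off_succ dd η (4 * m + 3)
        rw [d3, ite_self, k _ (by omega) (h m)] at this
        rw [show 4 * (m + 1) = 4 * m + 3 + 1 from rfl]; omega
    by_cases k : ∀ β < 4 * m, η β = true → off dd η β = (β + 1) / 4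
    · have := this k
      cases h0 : η (4 * m) <;> cases h1 : η (4 * m + 1) <;> cases h2 : η (4 * m + 2) <;>
        simp [h0, h1, h2, eq_true k] at * <;> omega
    · simp [k]

def lamp (tw tw' s : List (X × Bool)) (B P : ℕ) : List (X × Bool) :=
  (List.replicate (min P B) tw).flatten ++ s ++ (List.replicate (min P B) tw').flatten

def var (φ : List (T3 ℕ)) (β : ℕ) : ℕ := (φ.getD (β / 4) (0, 0, 0)).vars.getD (β % 4) 0

def red (tw tw' aw aw' : List (X × Bool)) (φ : List (T3 ℕ)) : List (List (X × Bool)) × List (X × Bool) :=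
  ((List.range (3 * φ.length + 4 * φ.length)).map fun i => if i < 3 * φ.length then
    (List.range (4 * φ.length)).flatMap fun β => if β % 4 ≠ 3 ∧ var φ β = i then
      lamp tw tw' aw' ((4 * φ.length + 1) ^ 2) (β * (4 * φ.length + 1) + (β + 1) / 4) else []
    else lamp tw tw' aw ((4 * φ.length + 1) ^ 2) ((i - 3 * φ.length) * (4 * φ.length + 1)) ++
      if (i - 3 * φ.length) % 4 = 3 then [] else tw,
   ((List.range (4 * φ.length)).flatMap fun β => if β % 4 = 3 then
      lamp tw tw' aw ((4 * φ.length + 1) ^ 2) (β * (4 * φ.length + 1) + (β + 1) / 4) else []) ++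
    (List.replicate φ.length tw).flatten)

theorem hard [Enc X] (hs : ∀ g, ∃ w, ev x w = g) (hb : ∀ g h, b (g * h) = b g + q g * b h)
    (hi : ∀ g, b g = 0 → g = 1) (ha : q a = 1) {L : Type} [Field L] (π : S →+* L)
    (hπ : ∀ r, r * b a = 0 → π r = 0) (hB : ¬Bad (π (q t))) : NPHard (SSP x) := by
  obtain ⟨tw, ht⟩ := hs t
  obtain ⟨tw', ht'⟩ := hs t⁻¹
  obtain ⟨aw, hw⟩ := hs a
  obtain ⟨aw', hw'⟩ := hs a⁻¹
  refine NPHard.of_one3 (red tw tw' aw aw') (by unfold red lamp var T3.vars; fun_prop) fun φ hφ => ?_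
  obtain ⟨m, hm⟩ : ∃ m, φ.length = m := ⟨_, rfl⟩
  have hl : ∀ s β r, β < 4 * m → r < 4 * m + 1 → ev x (lamp tw tw' s ((4 * m + 1) ^ 2) (β * (4 * m + 1) + r)) =
      t ^ (β * (4 * m + 1) + r) * ev x s * t⁻¹ ^ (β * (4 * m + 1) + r) := fun s β r h1 h2 => by
    rw [lamp, min_eq_left (by nlinarith), ev_app, ev_app, ev_rep, ev_rep, ht, ht']
  have hv : ∀ β < 4 * m, β % 4 ≠ 3 → var φ β < 3 * m := fun β h1 h2 => by
    rw [var, List.getD_eq_getElem φ _ (by omega), List.getD_eq_getElem _ _ (show _ < 3 by omega)]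
    exact ((hφ _ (List.getElem_mem _)).2 _ (List.getElem_mem _)).trans_eq (by rw [hm])
  let P := fun β => β * (4 * m + 1) + (β + 1) / 4
  let η := fun (δ : ℕ → Bool) β => if β % 4 = 3 then true else δ (var φ β)
  have R2 : Rel q b t a (ev x (red tw tw' aw aw' φ).2) (∑ β ∈ range (4 * m), if β % 4 = 3 then
      q t ^ P β else 0) m := by
    simp only [red, hm, ev_app, ev_flat, ev_rep, ht]
    simpa [off] using (Rel.pr hb (f := fun β => q t ^ P β) (d := fun _ => 0) (fun β => decide (β % 4 = 3)) (4 * m)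
      fun β h => by rw [hl _ _ _ h (by omega), hw]; exact (Rel.lamp hb ha _).1).mul hb (Rel.pow hb m)
  have R1 : ∀ E : ℕ → Bool, Rel q b t a ((red tw tw' aw aw' φ).1.mapIdx fun i w => ev x w ^ (E i).toNat).prod
      ((∑ β ∈ range (4 * m), if β % 4 = 3 then q t ^ P β else 0) -
        (∑ β ∈ range (4 * m), if η E β then q t ^ P β else 0) +
        ∑ β ∈ range (4 * m), if E (3 * m + β) then q t ^ (β * (4 * m + 1) +
          off dd (fun β => E (3 * m + β)) β) else 0) (off dd (fun β => E (3 * m + β)) (4 * m)) := fun E => by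
    have r1 := Rel.pr hb (t := t) (a := a) (d := fun _ => 0) (F := fun i => ev x ((List.range (4 * m)).flatMap
      fun β => if β % 4 ≠ 3 ∧ var φ β = i then lamp tw tw' aw' ((4 * m + 1) ^ 2) (P β) else []))
      (f := fun i => ∑ β ∈ range (4 * m), if β % 4 ≠ 3 ∧ var φ β = i then -q t ^ P β else 0) E (3 * m)
      fun i _ => by
        rw [ev_flat]
        simpa [off] using Rel.pr hb (f := fun β => -q t ^ P β) (d := fun _ => 0)
          (fun β => decide (β % 4 ≠ 3 ∧ var φ β = i)) (4 * m)
          fun β h => by rw [hl _ _ _ h (by omega), hw']; exact (Rel.lamp hb ha _).2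
    have r2 := Rel.pr hb (t := t) (a := a) (d := dd) (F := fun β => ev x (lamp tw tw' aw ((4 * m + 1) ^ 2)
      (β * (4 * m + 1)) ++ if β % 4 = 3 then [] else tw)) (f := fun β => q t ^ (β * (4 * m + 1)))
      (fun β => E (3 * m + β)) (4 * m) fun β h => by
        have := hl aw β 0 h (by omega)
        rw [add_zero] at this
        rw [ev_app, this, hw]
        have := ((Rel.lamp hb (t := t) ha (β * (4 * m + 1))).1.mul hb (Rel.pow hb (dd β)))
        unfold dd at *
        split_ifs at * <;> simpa [ht] using this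
    convert r1.mul hb r2 using 1
    · simp only [red, hm, pr]
      rw [← List.prod_append]
      congr 1
      refine List.ext_getElem (by simp) fun i h1 h2 => ?_
      by_cases h : i < 3 * m
      · simp [h, List.getElem_append_left, P]
      · simp [h, List.getElem_append_right, not_lt.1 h]
    · simp only [off, ite_self, sum_const_zero, pow_zero, one_mul, ← pow_add, add_comm (_ * (4 * m + 1))]
      congr 1
      rw [← sum_sub_distrib, sum_congr rfl fun i _ => (ite_sum_zero _ _ _), sum_comm]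
      refine sum_congr rfl fun β hβ => ?_
      by_cases h : β % 4 = 3
      · simp [h, η]
      · rw [sum_eq_single_of_mem _ (mem_range.2 (hv β (mem_range.1 hβ) h)) fun i _ hi => by simp [hi.symm]]
        cases k : E (var φ β) <;> simp [h, η, k]
    · simp [off]
  have sat : ∀ δ : ℕ → Bool, (∀ C ∈ φ, one3 (δ C.1) (δ C.2.1) (δ C.2.2) = true) ↔
      ∀ c < m, one3 (η δ (4 * c)) (η δ (4 * c + 1)) (η δ (4 * c + 2)) = true := fun δ => by
    rw [List.forall_mem_iff_getElem, ← hm]
    refine forall_congr' fun c => ⟨fun h hc => ?_, fun h hc => ?_⟩ <;> have := h hc <;>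
      simp only [η, var, show (4 * c + 1) % 4 = 1 by omega, show (4 * c + 2) % 4 = 2 by omega,
        show (4 * c + 1) / 4 = c by omega, show (4 * c + 2) / 4 = c by omega, show 4 * c / 4 = c by omega,
        show 4 * c % 4 = 0 by omega, List.getD_eq_getElem _ _ hc] at * <;> simpa [T3.vars] using this
  have η3 : ∀ δ c, η δ (4 * c + 3) = true := fun δ c => if_pos (by omega)
  constructor
  · rintro ⟨δ, hδ⟩
    obtain ⟨k1, k2⟩ := (core (η3 δ)).2 ((sat δ).1 hδ)
    let E := fun i => if i < 3 * m then δ i else η δ (i - 3 * m)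
    have e1 : (fun β => E (3 * m + β)) = η δ := by ext β; simp [E]
    obtain ⟨u, -, u2, u3⟩ := R1 E
    obtain ⟨v, -, v2, v3⟩ := R2
    refine ⟨E, ?_⟩
    rw [u3, v3, e1, k2, b_inj hb hi (g := u) (h := v)]
    rw [u2, v2, e1, sub_add, ← sum_sub_distrib, sum_eq_zero (s := range (4 * m)) (f := fun β => _ - _), sub_zero]
    intro β hβ
    have hβ := mem_range.1 hβ
    have : η E β = η δ β := by
      by_cases h : β % 4 = 3 <;> simp [η, E, h, hv β hβ]
    rw [this, congrFun e1 β]
    cases k : η δ β <;> simp [P, k1 β hβ, k]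
  · rintro ⟨E, hE⟩
    obtain ⟨u, u1, u2, u3⟩ := R1 E
    obtain ⟨v, v1, v2, v3⟩ := R2
    generalize hε : (fun β => E (3 * m + β)) = ε at *
    have hε' : ∀ β, E (3 * m + β) = ε β := congrFun hε
    have e : v * t ^ m = u * t ^ off dd ε (4 * m) := by rw [← v3, ← u3, hE]
    have e1 : m = off dd ε (4 * m) := by
      have := congrArg (fun g => π (q g)) e
      exact singleton_injective (sum_inj hB (by simpa [u1, v1] using this))
    rw [← e1, mul_left_inj] at e
    have e2 := hπ ((∑ β ∈ range (4 * m), if ε β then q t ^ (β * (4 * m + 1) + off dd ε β) else 0) -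
      ∑ β ∈ range (4 * m), if η E β then q t ^ P β else 0) (by
        rw [e, u2] at v2; simp only [hε'] at v2; linear_combination v2)
    have inj : ∀ β r β' r', r < 4 * m + 1 → r' < 4 * m + 1 → β * (4 * m + 1) + r = β' * (4 * m + 1) + r' →
        β = β' ∧ r = r' := fun β r β' r' h1 h2 h => by
      have h3 := congrArg (· % (4 * m + 1)) h
      simp only [Nat.mul_add_mod_self_right, Nat.mod_eq_of_lt h1, Nat.mod_eq_of_lt h2] at h3
      subst h3
      exact ⟨Nat.eq_of_mul_eq_mul_right (by omega) (Nat.add_right_cancel h), rfl⟩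
    have o1 : ∀ β < 4 * m, off dd ε β < 4 * m + 1 := fun β h => by have := off_le ε β; omega
    have e3 := sum_inj hB (U := ((range (4 * m)).filter (ε ·)).image fun β => β * (4 * m + 1) + off dd ε β)
      (V := ((range (4 * m)).filter (η E ·)).image P) (by
        rw [sum_image, sum_image, sum_filter, sum_filter]
        · simpa [sub_eq_zero, apply_ite π] using e2
        all_goals
          intro β h β' h' k
          simp only [coe_filter, mem_range, Set.mem_ofPred_eq] at h h'
          refine (inj _ _ _ _ ?_ ?_ k).1 <;> first | omega | exact o1 _ (by omega))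
    have k1 : ∀ β < 4 * m, ε β → η E β ∧ off dd ε β = (β + 1) / 4 := fun β h k => by
      obtain ⟨β', h1, h2⟩ := mem_image.1 (e3 ▸ mem_image_of_mem _ (mem_filter.2 ⟨mem_range.2 h, k⟩))
      simp only [mem_filter, mem_range] at h1
      obtain ⟨rfl, h3⟩ := inj _ _ _ _ (by omega) (o1 _ h) h2
      exact ⟨h1.2, h3.symm⟩
    have k2 : ∀ β < 4 * m, ε β = η E β := fun β h => Bool.eq_iff_iff.2 ⟨fun k => (k1 β h k).1, fun k => by
      obtain ⟨β', h1, h2⟩ := mem_image.1 (e3.symm ▸ mem_image_of_mem P (mem_filter.2 ⟨mem_range.2 h, k⟩))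
      simp only [mem_filter, mem_range] at h1
      obtain ⟨rfl, -⟩ := inj _ _ _ _ (o1 _ h1.1) (by omega) h2
      exact h1.2⟩
    have k3 : ∀ n ≤ 4 * m, off dd (η E) n = off dd ε n := fun n h =>
      sum_congr rfl fun i hi => by rw [k2 i (by have := mem_range.1 hi; omega)]
    exact ⟨E, (sat E).2 ((core (η3 E)).1 ⟨fun β h k => by
      rw [k3 β h.le, (k1 β h (k2 β h ▸ k)).2], by rw [k3 _ le_rfl, ← e1]⟩)⟩

end Pool.Agent.H.MP_521f94_lc
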